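import Pool.Agent.H65.PK.Targets

/-!
# Row SPD of pker_modules (MP_58ae59_nt): spinor data exist
-/

set_option autoImplicit false

open Polynomial Module Filter Topology

namespace Pool.Agent.H35.PKER

open Pool.Agent.H65.PK

theorem pf_SPD (hCAR : T_CAR) (hGEN : T_GEN) (hNOP : T_NOP) (hMPR : T_MPR) (hTRM : T_TRM)
    (hSQZ : T_SQZ) (hGRD : T_GRD) (hIDB : T_IDB) (hTRC : T_TRC) : T_SPD := by
  intro p q c hc hpq
  obtain ⟨D, hD, F, G, hFG⟩ := hCAR (Fin p ⊕ Fin q)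
  haveI : Nonempty (Fin D) := ⟨⟨0, hD⟩⟩
  haveI : Nontrivial (Fin D → ℚ) := Function.nontrivial
  obtain ⟨g1, g2, g3⟩ := hGEN p q (Fin D → ℚ) c F G hFG
  obtain ⟨n1, n2, n3, n4, n5, n6, n7⟩ := hNOP p q (Fin D → ℚ) c F G hFG
  obtain ⟨V, U, hmin⟩ := hMPR (Fin p ⊕ Fin p ⊕ Fin q) (Fin D → ℚ) (gen c F G)
    (fun e f => ⟨bil c e f, g1 e f⟩) (g3 hc (by omega))
  have hPV : ∀ s, ∀ v ∈ V, PP F G s v ∈ V := by
    intro s v hv
    exact hmin.uv (Sum.inr (Sum.inl s)) _ (hmin.vu (Sum.inl s) v hv)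
  have hPU : ∀ s, ∀ v ∈ U, PP F G s v ∈ U := by
    intro s v hv
    exact hmin.vu (Sum.inr (Sum.inl s)) _ (hmin.uv (Sum.inl s) v hv)
  have hIV := hIDB p (Fin D → ℚ) (PP F G) n1 n2 V hPV
  have hIU := hIDB p (Fin D → ℚ) (PP F G) n1 n2 U hPU
  have hd1 : 1 ≤ finrank ℚ V := Submodule.one_le_finrank_iff.2 hmin.ne
  rw [← hmin.eq] at hIU
  generalize finrank ℚ V = d at hIV hIU hd1
  obtain ⟨bV, eV, eV1, eV2⟩ := hIV
  obtain ⟨bU, eU, eU1, eU2⟩ := hIU
  obtain ⟨A, B, hA, hB, mA, mB⟩ := hTRM (Fin p ⊕ Fin p ⊕ Fin q) (Fin D → ℚ) (gen c F G) V U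
    hmin d bV bU
  let ν : Fin d → ℕ := fun i => ∑ s, eV s i
  let μ : Fin d → ℕ := fun i => ∑ s, eU s i
  have hNV : ∀ i, (∑ s', PP F G s') (bV i : Fin D → ℚ) = ((ν i : ℕ) : ℚ) • (bV i : Fin D → ℚ) := by
    intro i
    rw [LinearMap.sum_apply]
    simp only [ν, Nat.cast_sum, Finset.sum_smul]
    exact Finset.sum_congr rfl fun s _ => eV2 s i
  have hNU : ∀ i, (∑ s', PP F G s') (bU i : Fin D → ℚ) = ((μ i : ℕ) : ℚ) • (bU i : Fin D → ℚ) := by
    intro i
    rw [LinearMap.sum_apply]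
    simp only [μ, Nat.cast_sum, Finset.sum_smul]
    exact Finset.sum_congr rfl fun s _ => eU2 s i
  have liV : LinearIndependent ℚ (fun i => (bV i : Fin D → ℚ)) :=
    bV.linearIndependent.map' V.subtype (Submodule.ker_subtype V)
  have liU : LinearIndependent ℚ (fun i => (bU i : Fin D → ℚ)) :=
    bU.linearIndependent.map' U.subtype (Submodule.ker_subtype U)
  have k3 : ∀ s, (∑ s', PP F G s') * gen c F G (Sum.inl s) =
      gen c F G (Sum.inl s) * (∑ s', PP F G s') + ((-1 : ℤ) : ℚ) • gen c F G (Sum.inl s) := by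
    intro s
    have hx : ((-1 : ℤ) : ℚ) • gen c F G (Sum.inl s) = -gen c F G (Sum.inl s) := by
      refine LinearMap.ext fun v => ?_
      simp
    rw [n3 s, hx, ← sub_eq_add_neg]
  have k4 : ∀ s, (∑ s', PP F G s') * gen c F G (Sum.inr (Sum.inl s)) =
      gen c F G (Sum.inr (Sum.inl s)) * (∑ s', PP F G s') +
        ((1 : ℤ) : ℚ) • gen c F G (Sum.inr (Sum.inl s)) := by
    intro s
    rw [n4 s]
    simp
  have k5 : ∀ s, (∑ s', PP F G s') * gen c F G (Sum.inr (Sum.inr s)) =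
      gen c F G (Sum.inr (Sum.inr s)) * (∑ s', PP F G s') +
        ((0 : ℤ) : ℚ) • gen c F G (Sum.inr (Sum.inr s)) := by
    intro s
    rw [n5 s]
    simp
  -- the traces
  have hsum : ∀ s, 2 * ∑ i, eV s i = d ∧ 2 * ∑ i, eU s i = d := by
    intro s
    obtain ⟨y, b, hb, hyy, hcm⟩ := n7 hc hpq s
    have hap : ∀ v : Fin D → ℚ, (∑ e, y e • gen c F G e) v = ∑ e, y e • gen c F G e v := by
      intro v; simp [LinearMap.sum_apply]
    have t1 := (hTRC (Fin D → ℚ) (PP F G s) (∑ e, y e • gen c F G e) V U b hb hyy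
      (fun v hv => by
        rw [hap]
        exact Submodule.sum_mem _ fun e _ => Submodule.smul_mem _ _ (hmin.vu e v hv))
      (fun v hv => by
        rw [hap]
        exact Submodule.sum_mem _ fun e _ => Submodule.smul_mem _ _ (hmin.uv e v hv))
      d bV bU (eV s) (eU s) (eV2 s) (eU2 s) (eV1 s) (eU1 s)).1 hcm
    obtain ⟨m1, m2⟩ := n6 s
    have t2 := (hTRC (Fin D → ℚ) (PP F G s)
      (gen c F G (Sum.inl s) + gen c F G (Sum.inr (Sum.inl s))) V U 1 one_ne_zero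
      (by rw [m1, one_smul])
      (fun v hv => by
        rw [LinearMap.add_apply]
        exact Submodule.add_mem _ (hmin.vu _ v hv) (hmin.vu _ v hv))
      (fun v hv => by
        rw [LinearMap.add_apply]
        exact Submodule.add_mem _ (hmin.uv _ v hv) (hmin.uv _ v hv))
      d bV bU (eV s) (eU s) (eV2 s) (eU2 s) (eV1 s) (eU1 s)).2 m2
    omega
  refine ⟨d, A, B, ν, μ, hd1, ?_⟩
  refine
    { sq := ?_
      minA := mA
      minB := mB
      lowA := ?_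
      lowB := ?_
      upA := ?_
      upB := ?_
      keepA := ?_
      keepB := ?_
      leν := ?_
      leμ := ?_
      trν := ?_
      trμ := ?_ }
  · intro a b e h0
    refine hSQZ (Fin p ⊕ Fin p ⊕ Fin q) (Fin D → ℚ) (gen c F G) V U (bil c) g1 d bV bU A B hA hB
      (Sum.elim a (Sum.elim b e)) ?_
    rw [g2 a b e, h0, mul_zero]
  · intro s i j hne
    have h := hGRD (Fin D → ℚ) (∑ s', PP F G s') (gen c F G (Sum.inl s)) (-1) d
      (fun j => (bU j : Fin D → ℚ)) (bV i) (ν i) μ (A (Sum.inl s) i) liU (hNV i) hNU (k3 s)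
      (hA _ i) j hne
    omega
  · intro s i j hne
    have h := hGRD (Fin D → ℚ) (∑ s', PP F G s') (gen c F G (Sum.inl s)) (-1) d
      (fun j => (bV j : Fin D → ℚ)) (bU i) (μ i) ν (B (Sum.inl s) i) liV (hNU i) hNV (k3 s)
      (hB _ i) j hne
    omega
  · intro s i j hne
    have h := hGRD (Fin D → ℚ) (∑ s', PP F G s') (gen c F G (Sum.inr (Sum.inl s))) 1 d
      (fun j => (bU j : Fin D → ℚ)) (bV i) (ν i) μ (A (Sum.inr (Sum.inl s)) i) liU (hNV i) hNU
      (k4 s) (hA _ i) j hne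
    omega
  · intro s i j hne
    have h := hGRD (Fin D → ℚ) (∑ s', PP F G s') (gen c F G (Sum.inr (Sum.inl s))) 1 d
      (fun j => (bV j : Fin D → ℚ)) (bU i) (μ i) ν (B (Sum.inr (Sum.inl s)) i) liV (hNU i) hNV
      (k4 s) (hB _ i) j hne
    omega
  · intro s i j hne
    have h := hGRD (Fin D → ℚ) (∑ s', PP F G s') (gen c F G (Sum.inr (Sum.inr s))) 0 d
      (fun j => (bU j : Fin D → ℚ)) (bV i) (ν i) μ (A (Sum.inr (Sum.inr s)) i) liU (hNV i) hNU
      (k5 s) (hA _ i) j hne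
    omega
  · intro s i j hne
    have h := hGRD (Fin D → ℚ) (∑ s', PP F G s') (gen c F G (Sum.inr (Sum.inr s))) 0 d
      (fun j => (bV j : Fin D → ℚ)) (bU i) (μ i) ν (B (Sum.inr (Sum.inr s)) i) liV (hNU i) hNV
      (k5 s) (hB _ i) j hne
    omega
  · intro i
    calc ∑ s, eV s i ≤ ∑ _s : Fin p, 1 := Finset.sum_le_sum fun s _ => eV1 s i
      _ = p := by simp
  · intro i
    calc ∑ s, eU s i ≤ ∑ _s : Fin p, 1 := Finset.sum_le_sum fun s _ => eU1 s i
      _ = p := by simp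
  · calc 2 * ∑ i, ∑ s, eV s i = ∑ s, 2 * ∑ i, eV s i := by
          rw [Finset.sum_comm, Finset.mul_sum]
      _ = ∑ _s : Fin p, d := Finset.sum_congr rfl fun s _ => (hsum s).1
      _ = p * d := by simp
  · calc 2 * ∑ i, ∑ s, eU s i = ∑ s, 2 * ∑ i, eU s i := by
          rw [Finset.sum_comm, Finset.mul_sum]
      _ = ∑ _s : Fin p, d := Finset.sum_congr rfl fun s _ => (hsum s).2
      _ = p * d := by simp

end Pool.Agent.H35.PKER
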